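import Pool.Agent.Y493.Br.StmG1

/-! Job BR-G1b of helper493: principal frame from smooth eigenvalues. -/

set_option autoImplicit false

namespace Pool.Agent.Y563.BR

open Y493.Br Matrix Set Filter Topology
open scoped InnerProductSpace

section geo

variable {U : Set E3} {f ν : E3 → E5} {S : E3 → Matrix (Fin 3) (Fin 3) ℝ} {c : ℝ}

theorem exp3 (v : E3) : v = ∑ i, v i • EuclideanSpace.single i (1:ℝ) := by
  ext j
  simp [Fin.sum_univ_three]
  fin_cases j <;> simp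

theorem der_inner (hU : IsOpen U) {a b : E3 → E5} {k : ℝ} (ha : ∀ x ∈ U, DifferentiableAt ℝ a x)
    (hb : ∀ x ∈ U, DifferentiableAt ℝ b x) (h : ∀ x ∈ U, ⟪a x, b x⟫_ℝ = k) {x : E3} (hx : x ∈ U)
    (v : E3) : ⟪a x, fderiv ℝ b x v⟫_ℝ + ⟪fderiv ℝ a x v, b x⟫_ℝ = 0 := by
  have h1 : (fun y => ⟪a y, b y⟫_ℝ) =ᶠ[𝓝 x] fun _ => k := by
    filter_upwards [hU.mem_nhds hx] with y hy
    exact h y hy
  have h2 : fderiv ℝ (fun y => ⟪a y, b y⟫_ℝ) x = fderiv ℝ (fun _ => k) x := h1.fderiv_eq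
  have h3 := fderiv_inner_apply ℝ (ha x hx) (hb x hx) v
  rw [← h3, h2]
  simp

theorem difff (H : Hyp U f ν S c) : ∀ x ∈ U, DifferentiableAt ℝ f x := fun x hx =>
  (H.smf.contDiffAt (H.isOpen.mem_nhds hx)).differentiableAt (by simp)

theorem diffn (H : Hyp U f ν S c) : ∀ x ∈ U, DifferentiableAt ℝ ν x := fun x hx =>
  (H.smν.contDiffAt (H.isOpen.mem_nhds hx)).differentiableAt (by simp)

theorem smdf (H : Hyp U f ν S c) : ContDiffOn ℝ ((⊤ : ℕ∞) : WithTop ℕ∞) (fderiv ℝ f) U :=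
  H.smf.fderiv_of_isOpen H.isOpen (by simp)

theorem diffdf (H : Hyp U f ν S c) : ∀ x ∈ U, DifferentiableAt ℝ (fderiv ℝ f) x := fun x hx =>
  ((smdf H).contDiffAt (H.isOpen.mem_nhds hx)).differentiableAt (by simp)

theorem tang (H : Hyp U f ν S c) {x : E3} (hx : x ∈ U) (v : E3) : ⟪fderiv ℝ f x v, ν x⟫_ℝ = 0 := by
  rw [exp3 v, map_sum, sum_inner]
  refine Finset.sum_eq_zero fun i _ => ?_
  rw [map_smul, real_inner_smul_left, (H.normν x hx).2.2 i, mul_zero]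

theorem ff (H : Hyp U f ν S c) {x : E3} (hx : x ∈ U) : ⟪f x, f x⟫_ℝ = 1 := by
  rw [real_inner_self_eq_norm_sq, H.normf x hx]; norm_num

theorem nn (H : Hyp U f ν S c) {x : E3} (hx : x ∈ U) : ⟪ν x, ν x⟫_ℝ = 1 := by
  rw [real_inner_self_eq_norm_sq, (H.normν x hx).1]; norm_num

theorem fdf (H : Hyp U f ν S c) {x : E3} (hx : x ∈ U) (v : E3) :
    ⟪f x, fderiv ℝ f x v⟫_ℝ = 0 := by
  have h := der_inner H.isOpen (difff H) (difff H) (fun y hy => ff H hy) hx v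
  rw [real_inner_comm (f x) (fderiv ℝ f x v)] at h
  linarith

theorem ndn (H : Hyp U f ν S c) {x : E3} (hx : x ∈ U) (v : E3) :
    ⟪ν x, fderiv ℝ ν x v⟫_ℝ = 0 := by
  have h := der_inner H.isOpen (diffn H) (diffn H) (fun y hy => nn H hy) hx v
  rw [real_inner_comm (ν x) (fderiv ℝ ν x v)] at h
  linarith

theorem fdn (H : Hyp U f ν S c) {x : E3} (hx : x ∈ U) (v : E3) :
    ⟪f x, fderiv ℝ ν x v⟫_ℝ = 0 := by
  have h := der_inner H.isOpen (difff H) (diffn H) (fun y hy => (H.normν y hy).2.1) hx v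
  rw [tang H hx v] at h
  linarith

theorem dfn (H : Hyp U f ν S c) {x : E3} (hx : x ∈ U) (u v : E3) :
    ⟪fderiv ℝ f x u, fderiv ℝ ν x v⟫_ℝ = -⟪fderiv ℝ (fderiv ℝ f) x v u, ν x⟫_ℝ := by
  have hd : ∀ y ∈ U, DifferentiableAt ℝ (fun y => fderiv ℝ f y u) y := fun y hy =>
    (diffdf H y hy).clm_apply (differentiableAt_const _)
  have h := der_inner H.isOpen hd (diffn H) (fun y hy => tang H hy u) hx v
  have h2 : fderiv ℝ (fun y => fderiv ℝ f y u) x v = fderiv ℝ (fderiv ℝ f) x v u := by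
    rw [fderiv_clm_apply (diffdf H x hx) (differentiableAt_const _)]
    simp
  rw [h2] at h
  linarith

theorem hsymm (H : Hyp U f ν S c) {x : E3} (hx : x ∈ U) (u v : E3) :
    ⟪fderiv ℝ f x u, fderiv ℝ ν x v⟫_ℝ = ⟪fderiv ℝ f x v, fderiv ℝ ν x u⟫_ℝ := by
  rw [dfn H hx, dfn H hx]
  have h := (H.smf.contDiffAt (H.isOpen.mem_nhds hx)).isSymmSndFDerivAt
    (by
      rw [minSmoothness_of_isRCLikeNormedField]
      exact WithTop.coe_le_coe.mpr (show (2 : ℕ∞) ≤ ⊤ from le_top))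
  rw [h v u]

theorem inner_exp (L L' : E3 →L[ℝ] E5) (u w : E3) :
    ⟪L u, L' w⟫_ℝ = ∑ i, ∑ j, u i * w j * ⟪L (EuclideanSpace.single i (1:ℝ)),
      L' (EuclideanSpace.single j (1:ℝ))⟫_ℝ := by
  conv_lhs => rw [exp3 u, exp3 w, map_sum, map_sum, sum_inner]
  refine Finset.sum_congr rfl fun i _ => ?_
  rw [inner_sum]
  refine Finset.sum_congr rfl fun j _ => ?_
  rw [map_smul, map_smul, real_inner_smul_left, real_inner_smul_right]
  ring

/-- Gram matrix -/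
noncomputable def gm (f : E3 → E5) (x : E3) : Matrix (Fin 3) (Fin 3) ℝ :=
  Matrix.of (fun (i : Fin 3) (j : Fin 3) =>
        inner ℝ (fderiv ℝ f x (EuclideanSpace.single i (1 : ℝ)))
          (fderiv ℝ f x (EuclideanSpace.single j (1 : ℝ))))

theorem gm_det (H : Hyp U f ν S c) {x : E3} (hx : x ∈ U) : (gm f x).det ≠ 0 := by
  intro h0
  obtain ⟨v, hv, hv2⟩ := Matrix.exists_mulVec_eq_zero_iff.mpr h0
  have h1 : ⟪fderiv ℝ f x (WithLp.toLp 2 v), fderiv ℝ f x (WithLp.toLp 2 v)⟫_ℝ = 0 := by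
    rw [inner_exp]
    have h2 : ∀ i, ∑ j, v i * v j * ⟪fderiv ℝ f x (EuclideanSpace.single i (1:ℝ)),
        fderiv ℝ f x (EuclideanSpace.single j (1:ℝ))⟫_ℝ = v i * ((gm f x) *ᵥ v) i := by
      intro i
      rw [Matrix.mulVec, dotProduct, Finset.mul_sum]
      refine Finset.sum_congr rfl fun j _ => ?_
      simp only [gm, Matrix.of_apply]
      ring
    refine Finset.sum_eq_zero fun i _ => ?_
    have h3 := h2 i
    rw [hv2] at h3
    simpa using h3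
  rw [inner_self_eq_zero] at h1
  have h4 : WithLp.toLp 2 v = (0 : E3) := H.inj x hx (by rw [h1, map_zero])
  apply hv
  have h5 := congrArg WithLp.ofLp h4
  simpa using h5

theorem gs (H : Hyp U f ν S c) {x : E3} (hx : x ∈ U) (u v : E3) :
    ⟪fderiv ℝ f x u, fderiv ℝ f x (WithLp.toLp 2 (S x *ᵥ v.ofLp))⟫_ℝ =
      -⟪fderiv ℝ f x u, fderiv ℝ ν x v⟫_ℝ := by
  have h1 : gm f x * S x = Matrix.of (fun (i : Fin 3) (j : Fin 3) =>
        -inner ℝ (fderiv ℝ f x (EuclideanSpace.single i (1 : ℝ)))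
          (fderiv ℝ ν x (EuclideanSpace.single j (1 : ℝ)))) := by
    rw [H.shape x hx]
    exact Matrix.mul_nonsing_inv_cancel_left _ _ (isUnit_iff_ne_zero.mpr (gm_det H hx))
  have h2 : ∀ i j, ∑ k, ⟪fderiv ℝ f x (EuclideanSpace.single i (1:ℝ)),
      fderiv ℝ f x (EuclideanSpace.single k (1:ℝ))⟫_ℝ * S x k j =
      -⟪fderiv ℝ f x (EuclideanSpace.single i (1:ℝ)),
        fderiv ℝ ν x (EuclideanSpace.single j (1:ℝ))⟫_ℝ := by
    intro i j
    have h3 := congrFun (congrFun h1 i) j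
    rw [Matrix.mul_apply] at h3
    simpa only [gm, Matrix.of_apply] using h3
  rw [inner_exp, inner_exp (fderiv ℝ f x) (fderiv ℝ ν x)]
  have h4 : ∀ k, (S x *ᵥ v.ofLp) k = ∑ j, S x k j * v j := fun k => rfl
  rw [← Finset.sum_neg_distrib]
  refine Finset.sum_congr rfl fun i _ => ?_
  rw [← Finset.sum_neg_distrib]
  have h5 : ∀ j, -(u i * v j * ⟪fderiv ℝ f x (EuclideanSpace.single i (1:ℝ)),
        fderiv ℝ ν x (EuclideanSpace.single j (1:ℝ))⟫_ℝ) =
      ∑ k, u i * v j * (⟪fderiv ℝ f x (EuclideanSpace.single i (1:ℝ)),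
      fderiv ℝ f x (EuclideanSpace.single k (1:ℝ))⟫_ℝ * S x k j) := by
    intro j
    rw [← Finset.mul_sum, h2 i j]
    ring
  simp only [h5]
  rw [Finset.sum_comm]
  refine Finset.sum_congr rfl fun k _ => ?_
  show u i * (S x *ᵥ v.ofLp) k * _ = _
  rw [h4, Finset.mul_sum, Finset.sum_mul]
  refine Finset.sum_congr rfl fun j _ => ?_
  ring

/-- a vector orthogonal to `f`, `ν` and the tangent space vanishes -/
theorem five {F N : E5} {X : Fin 3 → E5} (hF : ⟪F, F⟫_ℝ = 1) (hN : ⟪N, N⟫_ℝ = 1)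
    (hFN : ⟪F, N⟫_ℝ = 0) (hFX : ∀ i, ⟪F, X i⟫_ℝ = 0) (hNX : ∀ i, ⟪X i, N⟫_ℝ = 0)
    (hX : ∀ i j, ⟪X i, X j⟫_ℝ = if i = j then 1 else 0) {w : E5} (h1 : ⟪F, w⟫_ℝ = 0)
    (h2 : ⟪N, w⟫_ℝ = 0) (h3 : ∀ i, ⟪X i, w⟫_ℝ = 0) : w = 0 := by
  have hNF : ⟪N, F⟫_ℝ = 0 := by rw [real_inner_comm]; exact hFN
  have hXF : ∀ i, ⟪X i, F⟫_ℝ = 0 := fun i => by rw [real_inner_comm]; exact hFX i
  have hNX' : ∀ i, ⟪N, X i⟫_ℝ = 0 := fun i => by rw [real_inner_comm]; exact hNX i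
  have ho : Orthonormal ℝ (![F, N, X 0, X 1, X 2] : Fin 5 → E5) := by
    rw [orthonormal_iff_ite]
    have nrm : ∀ Y : E5, ⟪Y, Y⟫_ℝ = 1 → ‖Y‖ = 1 := by
      intro Y hY
      rw [real_inner_self_eq_norm_sq] at hY
      nlinarith [norm_nonneg Y]
    have hF' := nrm F hF
    have hN' := nrm N hN
    have hX' : ∀ i, ‖X i‖ = 1 := fun i => nrm _ (by rw [hX, if_pos rfl])
    intro i j
    fin_cases i <;> fin_cases j <;> simp [hF', hN', hFN, hFX, hNX, hX, hNF, hXF, hNX', hX']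
  let b := basisOfOrthonormalOfCardEqFinrank ho (by simp)
  have hb : (b : Fin 5 → E5) = ![F, N, X 0, X 1, X 2] :=
    coe_basisOfOrthonormalOfCardEqFinrank ho (by simp)
  have hb2 : Orthonormal ℝ b := by rw [hb]; exact ho
  let b' := b.toOrthonormalBasis hb2
  have h4 := b'.sum_repr' w
  rw [← h4]
  refine Finset.sum_eq_zero fun i _ => ?_
  have h5 : b' i = (![F, N, X 0, X 1, X 2] : Fin 5 → E5) i := by
    rw [← hb]
    exact congrFun (Module.Basis.coe_toOrthonormalBasis b hb2) i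
  rw [h5]
  fin_cases i <;> simp [h1, h2, h3]

end geo

section frame

/-- the factors -/
def AA (S : E3 → Matrix (Fin 3) (Fin 3) ℝ) (lam : Fin 3 → E3 → ℝ) (k : Fin 3) (x : E3) :
    Matrix (Fin 3) (Fin 3) ℝ := S x - lam k x • (1 : Matrix (Fin 3) (Fin 3) ℝ)

theorem AA_comm (S : E3 → Matrix (Fin 3) (Fin 3) ℝ) (lam : Fin 3 → E3 → ℝ) (i j : Fin 3) (x : E3) :
    AA S lam i x * AA S lam j x = AA S lam j x * AA S lam i x := by
  unfold AA
  simp only [sub_mul, mul_sub, Matrix.smul_mul, Matrix.mul_smul, one_mul, mul_one, smul_smul]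
  rw [mul_comm (lam i x) (lam j x)]
  abel

theorem AA_cyc {S : E3 → Matrix (Fin 3) (Fin 3) ℝ} {lam : Fin 3 → E3 → ℝ} {x : E3}
    (h : AA S lam 0 x * AA S lam 1 x * AA S lam 2 x = 0) (k : Fin 3) :
    AA S lam k x * (AA S lam (k + 1) x * AA S lam (k + 2) x) = 0 := by
  fin_cases k
  · show AA S lam 0 x * (AA S lam 1 x * AA S lam 2 x) = 0
    rw [← mul_assoc]; exact h
  · show AA S lam 1 x * (AA S lam 2 x * AA S lam 0 x) = 0
    rw [AA_comm S lam 2 0, ← mul_assoc, AA_comm S lam 1 0]; exact h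
  · show AA S lam 2 x * (AA S lam 0 x * AA S lam 1 x) = 0
    rw [AA_comm S lam 0 1, ← mul_assoc, AA_comm S lam 2 1, mul_assoc, AA_comm S lam 2 0,
      ← mul_assoc, AA_comm S lam 1 0]; exact h

/-- the eigenvectors -/
def vv (S : E3 → Matrix (Fin 3) (Fin 3) ℝ) (lam : Fin 3 → E3 → ℝ) (w : Fin 3 → Fin 3 → ℝ)
    (k : Fin 3) (x : E3) : Fin 3 → ℝ :=
  AA S lam (k + 1) x *ᵥ (AA S lam (k + 2) x *ᵥ w k)

theorem vv_eig {S : E3 → Matrix (Fin 3) (Fin 3) ℝ} {lam : Fin 3 → E3 → ℝ} {x : E3}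
    (h : AA S lam 0 x * AA S lam 1 x * AA S lam 2 x = 0) (w : Fin 3 → Fin 3 → ℝ) (k : Fin 3) :
    S x *ᵥ vv S lam w k x = lam k x • vv S lam w k x := by
  have h1 : AA S lam k x *ᵥ vv S lam w k x = 0 := by
    unfold vv
    rw [Matrix.mulVec_mulVec, Matrix.mulVec_mulVec, mul_assoc, AA_cyc h k, Matrix.zero_mulVec]
  unfold AA at h1
  rw [Matrix.sub_mulVec, Matrix.smul_mulVec, Matrix.one_mulVec, sub_eq_zero] at h1
  exact h1

theorem vv_ne {S : E3 → Matrix (Fin 3) (Fin 3) ℝ} {lam : Fin 3 → E3 → ℝ} {x : E3}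
    {w : Fin 3 → Fin 3 → ℝ} {k : Fin 3} (hw : w k ≠ 0) (h : AA S lam k x *ᵥ w k = 0)
    (hne : ∀ i j : Fin 3, i ≠ j → lam i x ≠ lam j x) : vv S lam w k x ≠ 0 := by
  have h1 : S x *ᵥ w k = lam k x • w k := by
    unfold AA at h
    rw [Matrix.sub_mulVec, Matrix.smul_mulVec, Matrix.one_mulVec, sub_eq_zero] at h
    exact h
  have h2 : ∀ j, AA S lam j x *ᵥ w k = (lam k x - lam j x) • w k := by
    intro j
    unfold AA
    rw [Matrix.sub_mulVec, Matrix.smul_mulVec, Matrix.one_mulVec, h1, sub_smul]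
  unfold vv
  rw [h2, Matrix.mulVec_smul, h2, smul_smul]
  have h3 : k ≠ k + 1 := by fin_cases k <;> decide
  have h4 : k ≠ k + 2 := by fin_cases k <;> decide
  exact smul_ne_zero (mul_ne_zero (sub_ne_zero.mpr (hne _ _ h4)) (sub_ne_zero.mpr (hne _ _ h3))) hw

/-- the eigenvectors as vectors of `E3` -/
noncomputable def vE (S : E3 → Matrix (Fin 3) (Fin 3) ℝ) (lam : Fin 3 → E3 → ℝ)
    (w : Fin 3 → Fin 3 → ℝ) (k : Fin 3) (x : E3) : E3 := WithLp.toLp 2 (vv S lam w k x)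

theorem vE_smooth {V : Set E3} {S : E3 → Matrix (Fin 3) (Fin 3) ℝ} {lam : Fin 3 → E3 → ℝ}
    (hS : ∀ i j, ContDiffOn ℝ ((⊤ : ℕ∞) : WithTop ℕ∞) (fun x => S x i j) V)
    (hl : ∀ i, ContDiffOn ℝ ((⊤ : ℕ∞) : WithTop ℕ∞) (lam i) V) (w : Fin 3 → Fin 3 → ℝ)
    (k : Fin 3) : ContDiffOn ℝ ((⊤ : ℕ∞) : WithTop ℕ∞) (vE S lam w k) V := by
  have hA : ∀ k i j, ContDiffOn ℝ ((⊤ : ℕ∞) : WithTop ℕ∞) (fun x => AA S lam k x i j) V := by
    intro k i j
    have : (fun x => AA S lam k x i j) =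
        fun x => S x i j - lam k x * (1 : Matrix (Fin 3) (Fin 3) ℝ) i j := by
      funext x
      simp [AA, Matrix.sub_apply, Matrix.smul_apply]
    rw [this]
    exact (hS i j).sub ((hl k).mul contDiffOn_const)
  rw [contDiffOn_euclidean]
  intro i
  have : (fun x => vE S lam w k x i) = fun x => ∑ j, AA S lam (k + 1) x i j *
      ∑ m, AA S lam (k + 2) x j m * w k m := by
    funext x
    rfl
  rw [this]
  refine ContDiffOn.sum fun j _ => (hA _ i j).mul (ContDiffOn.sum fun m _ => ?_)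
  exact (hA _ j m).mul contDiffOn_const

end frame

theorem g1b : StG1b := by
  intro hA U f ν S c H x0 hx0 hd
  obtain ⟨V1, lam, hV1, hx1, hVU, hS, hl, h21, h10, hs0, hsq, hdet, hprod, htr⟩ :=
    hA U f ν S c H x0 hx0 hd
  have hne : ∀ x ∈ V1, ∀ i j : Fin 3, i ≠ j → lam i x ≠ lam j x := by
    intro x hx i j hij
    have a := h21 x hx
    have b := h10 x hx
    fin_cases i <;> fin_cases j <;> simp at hij ⊢ <;> intro h <;> linarith
  have hw : ∀ k : Fin 3, ∃ w : Fin 3 → ℝ, w ≠ 0 ∧ AA S lam k x0 *ᵥ w = 0 := by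
    intro k
    exact Matrix.exists_mulVec_eq_zero_iff.mpr (hdet x0 hx1 k)
  choose w hw0 hw1 using hw
  have hprod' : ∀ x ∈ V1, AA S lam 0 x * AA S lam 1 x * AA S lam 2 x = 0 := hprod
  have hsm := vE_smooth hS hl w
  set V : Set E3 := {x | x ∈ V1 ∧ ∀ k, vE S lam w k x ≠ 0} with hV
  have hVV1 : V ⊆ V1 := fun x hx => hx.1
  have hVo : IsOpen V := by
    have h1 : V = ⋂ k, (V1 ∩ (vE S lam w k) ⁻¹' {0}ᶜ) := by
      ext x
      simp only [hV, mem_ofPred_eq, mem_iInter, mem_inter_iff, mem_preimage, mem_compl_iff,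
        mem_singleton_iff]
      exact ⟨fun h k => ⟨h.1, h.2 k⟩, fun h => ⟨(h 0).1, fun k => (h k).2⟩⟩
    rw [h1]
    exact isOpen_iInter_of_finite fun k =>
      (hsm k).continuousOn.isOpen_inter_preimage hV1 isOpen_compl_singleton
  have hvne : ∀ x ∈ V, ∀ k, fderiv ℝ f x (vE S lam w k x) ≠ 0 := by
    intro x hx k h0
    exact hx.2 k (H.inj x (hVU hx.1) (by rw [h0, map_zero]))
  have hx0V : x0 ∈ V := by
    refine ⟨hx1, fun k h0 => ?_⟩
    have h1 : vv S lam w k x0 = 0 := by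
      have h5 := congrArg WithLp.ofLp h0
      simpa [vE] using h5
    exact vv_ne (hw0 k) (hw1 k) (hne x0 hx1) h1
  -- the eigenvalue equation
  have heig : ∀ x ∈ V, ∀ k, ∀ u : E3,
      ⟪fderiv ℝ f x u, fderiv ℝ ν x (vE S lam w k x)⟫_ℝ =
        -(lam k x) * ⟪fderiv ℝ f x u, fderiv ℝ f x (vE S lam w k x)⟫_ℝ := by
    intro x hx k u
    have h1 := gs H (hVU hx.1) u (vE S lam w k x)
    have h2 : (WithLp.toLp 2 (S x *ᵥ (vE S lam w k x).ofLp) : E3) =
        lam k x • vE S lam w k x := by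
      show (WithLp.toLp 2 (S x *ᵥ vv S lam w k x) : E3) = lam k x • WithLp.toLp 2 (vv S lam w k x)
      rw [vv_eig (hprod' x hx.1) w k, WithLp.toLp_smul]
    rw [h2, map_smul, real_inner_smul_right] at h1
    linarith
  have horth : ∀ x ∈ V, ∀ i j, i ≠ j →
      ⟪fderiv ℝ f x (vE S lam w i x), fderiv ℝ f x (vE S lam w j x)⟫_ℝ = 0 := by
    intro x hx i j hij
    have h1 := heig x hx j (vE S lam w i x)
    have h2 := heig x hx i (vE S lam w j x)
    rw [hsymm H (hVU hx.1), h2, real_inner_comm] at h1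
    have h3 : (lam i x - lam j x) *
        ⟪fderiv ℝ f x (vE S lam w i x), fderiv ℝ f x (vE S lam w j x)⟫_ℝ = 0 := by linarith
    rcases mul_eq_zero.mp h3 with h4 | h4
    · exact absurd h4 (sub_ne_zero.mpr (hne x hx.1 i j hij))
    · exact h4
  set E : Fin 3 → E3 → E3 := fun k x => (‖fderiv ℝ f x (vE S lam w k x)‖)⁻¹ • vE S lam w k x with hE
  have hfd : ContDiffOn ℝ ((⊤ : ℕ∞) : WithTop ℕ∞) (fderiv ℝ f) V :=
    (smdf H).mono (hVV1.trans hVU)
  have hsmE : ∀ i, ContDiffOn ℝ ((⊤ : ℕ∞) : WithTop ℕ∞) (E i) V := by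
    intro i
    have h1 : ContDiffOn ℝ ((⊤ : ℕ∞) : WithTop ℕ∞) (fun x => fderiv ℝ f x (vE S lam w i x)) V :=
      hfd.clm_apply ((hsm i).mono hVV1)
    have h2 : ContDiffOn ℝ ((⊤ : ℕ∞) : WithTop ℕ∞)
        (fun x => ‖fderiv ℝ f x (vE S lam w i x)‖) V := h1.norm ℝ (fun x hx => hvne x hx i)
    exact (h2.inv (fun x hx => norm_ne_zero_iff.mpr (hvne x hx i))).smul ((hsm i).mono hVV1)
  have horthE : ∀ x ∈ V, ∀ i j, ⟪fderiv ℝ f x (E i x), fderiv ℝ f x (E j x)⟫_ℝ =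
      if i = j then (1 : ℝ) else 0 := by
    intro x hx i j
    simp only [hE]
    rw [map_smul, map_smul, real_inner_smul_left, real_inner_smul_right]
    split_ifs with h
    · subst h
      rw [real_inner_self_eq_norm_sq]
      have := norm_ne_zero_iff.mpr (hvne x hx i)
      field_simp
    · rw [horth x hx i j h]; ring
  refine ⟨V, E, lam, hx0V, hVV1.trans hVU, ?_, fun x hx => htr x hx.1⟩
  refine ⟨hVo, H.smf.mono (hVV1.trans hVU), H.smν.mono (hVV1.trans hVU), hsmE,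
    fun i => (hl i).mono hVV1, fun x hx => H.inj x (hVU hx.1), fun x hx => ff H (hVU hx.1),
    fun x hx => nn H (hVU hx.1), fun x hx => (H.normν x (hVU hx.1)).2.1,
    fun x hx v => tang H (hVU hx.1) v, horthE, ?_, fun x hx => h21 x hx.1,
    fun x hx => h10 x hx.1, fun x hx => hs0 x hx.1, fun x hx => hsq x hx.1⟩
  intro x hx i
  have hxU := hVU hx.1
  have h0 : fderiv ℝ ν x (E i x) + lam i x • fderiv ℝ f x (E i x) = 0 := by
    refine five (X := fun k => fderiv ℝ f x (E k x)) (ff H hxU) (nn H hxU)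
      (H.normν x hxU).2.1 (fun k => fdf H hxU _) (fun k => tang H hxU _) (horthE x hx) ?_ ?_ ?_
    · rw [inner_add_right, real_inner_smul_right, fdn H hxU, fdf H hxU]; ring
    · rw [inner_add_right, real_inner_smul_right, ndn H hxU, real_inner_comm, tang H hxU]; ring
    · intro k
      simp only [hE]
      rw [inner_add_right, real_inner_smul_right, map_smul (fderiv ℝ ν x),
        map_smul (fderiv ℝ f x) _ (vE S lam w i x), real_inner_smul_right, real_inner_smul_right,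
        heig x hx i]
      ring
  rw [neg_smul]
  exact eq_neg_of_add_eq_zero_left h0

end Pool.Agent.Y563.BR
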